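import Pool.Agent.TH181.MX.Fin

/-! # Exponential sums with bounded coefficients: the points where partial sums are large -/

set_option autoImplicit false

open Finset MeasureTheory

namespace Pool.Agent.R505.ES

open Pool.Agent.W928.MW (e e_add e_norm e_cont e_lip ev_pow ev_log)
open Pool.Agent.TH181.MX (parseval wt wt_nonneg wt_sum max_pt)
open Pool.Agent.TH181.MW (S_COV_t S_DIMG_t sum_Icc_range)

/-- the exponential sum with the coefficients `c` -/
noncomputable def ps (c : ℕ → ℂ) (N : ℕ) (x : ℝ) : ℂ := ∑ n ∈ Icc 1 N, c n * e (x * n)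

theorem ps_le (c : ℕ → ℂ) (hc : ∀ n, ‖c n‖ ≤ 1) (N : ℕ) (x : ℝ) : ‖ps c N x‖ ≤ N := by
  unfold ps
  refine (norm_sum_le _ _).trans ?_
  have h1 : ∀ n ∈ Icc 1 N, ‖c n * e (x * n)‖ ≤ 1 := by
    intro n _
    rw [norm_mul, e_norm, mul_one]
    exact hc n
  refine (Finset.sum_le_sum h1).trans ?_
  simp

theorem mv (c : ℕ → ℂ) (hc : ∀ n, ‖c n‖ ≤ 1) (N : ℕ) (u v : ℤ) (huv : u ≤ v) (s : ℝ) :
    ∫ x in (u : ℝ)..(v : ℝ), ‖ps c N (x + s)‖ ^ 2 ≤ ((v : ℝ) - u) * N := by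
  have h1 : ∀ x : ℝ, ps c N (x + s) =
      ∑ n ∈ Icc 1 N, e (x * (((n : ℕ) : ℤ) : ℝ)) * (c n * e (s * n)) := by
    intro x
    unfold ps
    apply Finset.sum_congr rfl
    intro n _
    have : e ((x + s) * (n : ℝ)) = e (x * (((n : ℕ) : ℤ) : ℝ)) * e (s * n) := by
      rw [← e_add]; congr 1; push_cast; ring
    rw [this]; ring
  simp_rw [h1]
  rw [parseval (Icc 1 N) (fun n : ℕ => (n : ℤ)) (fun a _ b _ h => by simpa using h)]
  have huv' : (0 : ℝ) ≤ (v : ℝ) - u := by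
    have : (u : ℝ) ≤ v := by exact_mod_cast huv
    linarith
  apply mul_le_mul_of_nonneg_left _ huv'
  have h2 : ∀ n ∈ Icc 1 N, ‖c n * e (s * n)‖ ^ 2 ≤ 1 := by
    intro n _
    rw [norm_mul, e_norm, mul_one]
    exact pow_le_one₀ (norm_nonneg _) (hc n)
  refine (Finset.sum_le_sum h2).trans ?_
  simp

theorem ps_cont (c : ℕ → ℂ) (N : ℕ) (s : ℝ) : Continuous (fun x : ℝ => ps c N (x + s)) := by
  unfold ps
  refine continuous_finsetSum _ (fun n _ => ?_)
  exact continuous_const.mul (e_cont.comp (by fun_prop))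

theorem shift (c : ℕ → ℂ) (N M : ℕ) (ξ ξ' B : ℝ) (hN : 1 ≤ N) (hM : M ≤ N) (hB : 0 ≤ B)
    (htt : |ξ - ξ'| ≤ 1 / (N : ℝ))
    (h : ∀ m : ℕ, m ≤ N → ‖ps c m ξ'‖ ≤ B) : ‖ps c M ξ‖ ≤ (1 + 2 * Real.pi) * B := by
  have hN' : (1 : ℝ) ≤ N := by exact_mod_cast hN
  have hN0 : (0 : ℝ) < N := by linarith
  have h1 : ps c M ξ = ∑ x ∈ range M, e ((ξ - ξ') * ((x + 1 : ℕ) : ℝ)) *
      (c (x + 1) * e (ξ' * ((x + 1 : ℕ) : ℝ))) := by
    unfold ps
    rw [sum_Icc_range]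
    apply Finset.sum_congr rfl
    intro x _
    have : e (ξ * ((x + 1 : ℕ) : ℝ)) = e ((ξ - ξ') * ((x + 1 : ℕ) : ℝ)) * e (ξ' * ((x + 1 : ℕ) : ℝ)) := by
      rw [← e_add]
      congr 1
      ring
    rw [this]; ring
  have h2 := Pool.Agent.H520R3.abel_bound (fun x : ℕ => e ((ξ - ξ') * ((x + 1 : ℕ) : ℝ)))
    (fun x : ℕ => c (x + 1) * e (ξ' * ((x + 1 : ℕ) : ℝ))) B (2 * Real.pi) hB M
    (by
      intro X hX
      have h3 := h X (hX.trans hM)
      unfold ps at h3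
      rwa [sum_Icc_range] at h3)
    (fun x => (e_norm _).le)
    (by
      have h4 : ∀ x ∈ range M, ‖e ((ξ - ξ') * ((x + 1 + 1 : ℕ) : ℝ)) - e ((ξ - ξ') * ((x + 1 : ℕ) : ℝ))‖ ≤
          2 * Real.pi * |ξ - ξ'| := by
        intro x _
        refine (e_lip _ _).trans (le_of_eq ?_)
        rw [← mul_sub]
        congr 2
        push_cast
        ring
      refine (Finset.sum_le_sum h4).trans ?_
      rw [Finset.sum_const, Finset.card_range, nsmul_eq_mul]
      have hM' : (M : ℝ) ≤ N := by exact_mod_cast hM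
      calc (M : ℝ) * (2 * Real.pi * |ξ - ξ'|) ≤ (N : ℝ) * (2 * Real.pi * (1 / (N : ℝ))) := by
            apply mul_le_mul hM' _ (by positivity) hN0.le
            exact mul_le_mul_of_nonneg_left htt (by positivity)
        _ = 2 * Real.pi := by field_simp)
  rw [h1]
  refine h2.trans (le_of_eq ?_)
  ring

/-- measure of the set where a partial sum is large -/
theorem meas (c : ℕ → ℂ) (hc : ∀ n, ‖c n‖ ≤ 1) (N : ℕ) (hN : 1 ≤ N)
    (u v : ℤ) (lam : ℝ) (huv : u ≤ v) (hl : 0 < lam) :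
    volume {x : ℝ | x ∈ Set.Icc (u : ℝ) (v : ℝ) ∧ ∃ m : ℕ, m ≤ N ∧ lam ≤ ‖ps c m x‖} ≤
      ENNReal.ofReal (((v : ℝ) - u) * ((2 + Real.log N) ^ 2 * N) / lam ^ 2) := by
  have hN' : (1 : ℝ) ≤ N := by exact_mod_cast hN
  have hN0 : (0 : ℝ) < N := by linarith
  have huv' : (u : ℝ) ≤ (v : ℝ) := by exact_mod_cast huv
  set Wt : ℝ := ∑ b ∈ range N, wt N b with hWt
  have hWle : Wt ≤ 2 + Real.log N := wt_sum N hN
  have hW1 : 1 ≤ Wt := by
    have h1 : wt N 0 ≤ Wt := Finset.single_le_sum (f := fun b => wt N b)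
      (fun b hb => wt_nonneg N b (Finset.mem_range.mp hb)) (Finset.mem_range.mpr (by omega))
    have h2 : wt N 0 = 1 := by unfold wt; simp
    linarith
  have hW0 : 0 < Wt := by linarith
  set G : ℝ → ℝ := fun x => Wt ^ 2 * ∑ b ∈ range N, (wt N b / Wt) * ‖ps c N (x + (b : ℝ) / N)‖ ^ 2 with hG
  have hGc : Continuous G := by
    rw [hG]
    refine continuous_const.mul (continuous_finsetSum _ (fun b _ => ?_))
    exact continuous_const.mul ((ps_cont c N ((b : ℝ) / N)).norm.pow 2)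
  have hG0 : ∀ x, 0 ≤ G x := by
    intro x
    rw [hG]
    apply mul_nonneg (by positivity)
    apply Finset.sum_nonneg
    intro b hb
    have := wt_nonneg N b (Finset.mem_range.mp hb)
    positivity
  have hpt : ∀ (x : ℝ) (m : ℕ), m ≤ N → ‖ps c m x‖ ^ 2 ≤ G x := by
    intro x m hm
    have h1 := max_pt N m hN hm c x
    have h2 : ∑ b ∈ range N, wt N b * ‖∑ n ∈ Icc 1 N, c n * e ((x + b / N) * n)‖ =
        Wt * ∑ b ∈ range N, (wt N b / Wt) * ‖ps c N (x + (b : ℝ) / N)‖ := by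
      rw [Finset.mul_sum]
      apply Finset.sum_congr rfl
      intro b _
      unfold ps
      field_simp
    rw [h2] at h1
    have h3 := pow_le_pow_left₀ (norm_nonneg _) h1 2
    refine h3.trans ?_
    rw [mul_pow, hG]
    apply mul_le_mul_of_nonneg_left _ (by positivity)
    apply Real.pow_arith_mean_le_arith_mean_pow
    · intro b hb
      have := wt_nonneg N b (Finset.mem_range.mp hb)
      positivity
    · rw [← Finset.sum_div, ← hWt, div_self hW0.ne']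
    · intro b _
      exact norm_nonneg _
  have hint : ∫ x in (u : ℝ)..(v : ℝ), G x ≤ ((v : ℝ) - u) * ((2 + Real.log N) ^ 2 * N) := by
    rw [hG, intervalIntegral.integral_const_mul, intervalIntegral.integral_finsetSum]
    · have h1 : ∀ b ∈ range N, ∫ x in (u : ℝ)..(v : ℝ), (wt N b / Wt) * ‖ps c N (x + (b : ℝ) / N)‖ ^ 2 ≤
          (wt N b / Wt) * (((v : ℝ) - u) * N) := by
        intro b hb
        rw [intervalIntegral.integral_const_mul]
        have := wt_nonneg N b (Finset.mem_range.mp hb)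
        exact mul_le_mul_of_nonneg_left (mv c hc N u v huv _) (by positivity)
      have h2 := Finset.sum_le_sum h1
      rw [← Finset.sum_mul, ← Finset.sum_div, ← hWt, div_self hW0.ne', one_mul] at h2
      have hK : 0 ≤ ((v : ℝ) - u) * (N : ℝ) := mul_nonneg (by linarith) hN0.le
      calc Wt ^ 2 * ∑ b ∈ range N, ∫ x in (u : ℝ)..(v : ℝ), (wt N b / Wt) * ‖ps c N (x + (b : ℝ) / N)‖ ^ 2
          ≤ Wt ^ 2 * (((v : ℝ) - u) * N) := mul_le_mul_of_nonneg_left h2 (by positivity)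
        _ ≤ (2 + Real.log N) ^ 2 * (((v : ℝ) - u) * N) := by
            apply mul_le_mul_of_nonneg_right _ hK
            exact pow_le_pow_left₀ hW0.le hWle 2
        _ = ((v : ℝ) - u) * ((2 + Real.log N) ^ 2 * N) := by ring
    · intro b _
      apply Continuous.intervalIntegrable
      exact continuous_const.mul ((ps_cont c N ((b : ℝ) / N)).norm.pow 2)
  set ρ : ℝ := lam ^ 2 with hρ
  have hρ0 : 0 < ρ := by positivity
  have hsub : {x : ℝ | x ∈ Set.Icc (u : ℝ) (v : ℝ) ∧ ∃ m : ℕ, m ≤ N ∧ lam ≤ ‖ps c m x‖} ⊆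
      {x : ℝ | ρ ≤ G x} ∩ Set.Icc (u : ℝ) (v : ℝ) := by
    rintro x ⟨hx, m, hm, hξ⟩
    exact ⟨(pow_le_pow_left₀ hl.le hξ 2).trans (hpt x m hm), hx⟩
  have hmeas : MeasurableSet {x : ℝ | ρ ≤ G x} := (isClosed_le continuous_const hGc).measurableSet
  have hint' : Integrable G (volume.restrict (Set.Icc (u : ℝ) (v : ℝ))) := (hGc.continuousOn).integrableOn_Icc
  have h3 := mul_meas_ge_le_integral_of_nonneg (μ := volume.restrict (Set.Icc (u : ℝ) (v : ℝ))) (f := G)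
    (Filter.Eventually.of_forall hG0) hint' ρ
  have h4 : ∫ x, G x ∂(volume.restrict (Set.Icc (u : ℝ) (v : ℝ))) = ∫ x in (u : ℝ)..(v : ℝ), G x := by
    rw [intervalIntegral.integral_of_le huv', integral_Icc_eq_integral_Ioc]
  rw [h4] at h3
  have h5 : (volume.restrict (Set.Icc (u : ℝ) (v : ℝ))).real {x : ℝ | ρ ≤ G x} =
      (volume ({x : ℝ | ρ ≤ G x} ∩ Set.Icc (u : ℝ) (v : ℝ))).toReal := by
    unfold Measure.real
    rw [Measure.restrict_apply hmeas]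
  rw [h5] at h3
  have hfin : volume ({x : ℝ | ρ ≤ G x} ∩ Set.Icc (u : ℝ) (v : ℝ)) ≠ ⊤ := by
    refine ne_top_of_le_ne_top ?_ (measure_mono Set.inter_subset_right)
    rw [Real.volume_Icc]
    exact ENNReal.ofReal_ne_top
  refine (measure_mono hsub).trans ?_
  rw [← ENNReal.ofReal_toReal hfin]
  apply ENNReal.ofReal_le_ofReal
  rw [le_div_iff₀ hρ0, mul_comm]
  exact h3.trans hint

/-- **Covering number of the points where a partial sum is large.** -/
theorem cover (c : ℕ → ℂ) (hc : ∀ n, ‖c n‖ ≤ 1) (N : ℕ) (hN : 1 ≤ N) (j : ℤ) (V : ℝ) (hV : 0 < V) :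
    ∃ S : Finset ℝ, (S.card : ℝ) ≤ 192 * ((2 + Real.log N) * N / V) ^ 2 ∧
      {x : ℝ | x ∈ Set.Icc (j : ℝ) ((j : ℝ) + 1) ∧ ∃ m : ℕ, m ≤ N ∧ V ≤ ‖ps c m x‖} ⊆
        ⋃ x ∈ S, Set.Icc x (x + 1 / (N : ℝ)) := by
  have hN' : (1 : ℝ) ≤ N := by exact_mod_cast hN
  have hN0 : (0 : ℝ) < N := by linarith
  have hlog : 0 ≤ Real.log N := Real.log_nonneg hN'
  set μ : ℝ := V / 8 with hμ
  have hμ0 : 0 < μ := by positivity
  set δ : ℝ := 1 / (N : ℝ) with hδ
  have hδ0 : 0 < δ := by positivity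
  have hδ1 : δ ≤ 1 := by rw [hδ, div_le_one hN0]; exact hN'
  have hpi : 1 + 2 * Real.pi < 8 := by linarith [Real.pi_lt_d2]
  obtain ⟨S, hS1, hS2⟩ := S_COV_t
    {x : ℝ | x ∈ Set.Icc (j : ℝ) ((j : ℝ) + 1) ∧ ∃ m : ℕ, m ≤ N ∧ V ≤ ‖ps c m x‖}
    {x : ℝ | x ∈ Set.Icc (((j - 1 : ℤ)) : ℝ) (((j + 2 : ℤ)) : ℝ) ∧
      ∃ m : ℕ, m ≤ N ∧ μ ≤ ‖ps c m x‖} δ
    (3 * ((2 + Real.log N) ^ 2 * N) / μ ^ 2) (j : ℝ) ((j : ℝ) + 1) hδ0 (by positivity)
    (fun x hx => hx.1) (by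
      rintro x ⟨hx1, M, hM, hVM⟩ x' hxx
      have hxx' := abs_le.mp hxx
      refine ⟨⟨by push_cast; linarith [hx1.1, hxx'.1], by push_cast; linarith [hx1.2, hxx'.2]⟩, ?_⟩
      by_contra hcon
      push Not at hcon
      have h5 := shift c N M x x' μ hN hM hμ0.le (by rw [abs_sub_comm]; exact hxx)
        (fun m hm => (hcon m hm).le)
      have h6 : (1 + 2 * Real.pi) * μ < V := by
        rw [hμ]
        nlinarith
      linarith)
    (by
      have h5 := meas c hc N hN (j - 1) (j + 2) μ (by omega) hμ0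
      refine h5.trans (ENNReal.ofReal_le_ofReal ?_)
      apply le_of_eq
      congr 2
      push_cast
      ring)
  refine ⟨S, hS1.trans (le_of_eq ?_), hS2⟩
  rw [hμ, hδ]
  field_simp
  norm_num

end Pool.Agent.R505.ES
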