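import Pool.Agent.R505.ES.Basic

/-! # Hausdorff dimension of the set of the points with large exponential sums -/

set_option autoImplicit false

open Finset MeasureTheory

namespace Pool.Agent.R505.ES

open Pool.Agent.W928.MW (e e_add e_norm e_cont e_lip ev_pow ev_log)
open Pool.Agent.TH181.MW (S_COV_t S_DIMG_t)

/-- the partial sums at `x` are `O(N^σ)` -/
def Good (c : ℕ → ℂ) (σ x : ℝ) : Prop := ∃ C : ℝ, ∀ N : ℕ, 1 ≤ N → ‖ps c N x‖ ≤ C * (N : ℝ) ^ σ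

/-- points with a large partial sum at the scale `2^i` -/
def BB (c : ℕ → ℂ) (σ : ℝ) (j : ℤ) (i : ℕ) : Set ℝ :=
  {x : ℝ | x ∈ Set.Icc (j : ℝ) ((j : ℝ) + 1) ∧ ∃ M : ℕ, M ≤ 2 ^ i ∧ 2 ^ i ≤ 2 * M ∧
    (M : ℝ) ^ σ < ‖ps c M x‖}

theorem coverB (c : ℕ → ℂ) (hc : ∀ n, ‖c n‖ ≤ 1) (σ : ℝ) (hσ : 0 ≤ σ) (ε : ℝ) (hε : 0 < ε) (j : ℤ) :
    ∃ i0 : ℕ, ∀ i : ℕ, i0 ≤ i → ∃ S : Finset ℝ,
      (S.card : ℝ) ≤ ((2 : ℝ) ^ i) ^ (2 - 2 * σ + 3 * ε) ∧
      BB c σ j i ⊆ ⋃ x ∈ S, Set.Icc x (x + ((2 : ℝ) ^ i) ^ (-(1 : ℝ))) := by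
  obtain ⟨i1, h1⟩ := ev_log ε hε 1
  obtain ⟨i3, h3⟩ := ev_pow ε hε (192 * ((2 : ℝ) ^ σ) ^ 2)
  refine ⟨i1 + i3, fun i hi => ?_⟩
  have g1 := h1 i (by omega)
  have g3 := h3 i (by omega)
  set X : ℝ := (2 : ℝ) ^ i with hX
  have hX1 : (1 : ℝ) ≤ X := one_le_pow₀ (by norm_num)
  have hX0 : (0 : ℝ) < X := by positivity
  have hNX : (((2 ^ i : ℕ) : ℕ) : ℝ) = X := by push_cast; rfl
  have hlog : 0 ≤ Real.log X := Real.log_nonneg hX1
  set V : ℝ := (X / 2) ^ σ with hV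
  have hV0 : 0 < V := by positivity
  obtain ⟨S, hS1, hS2⟩ := cover c hc (2 ^ i) Nat.one_le_two_pow j V hV0
  rw [hNX] at hS1
  refine ⟨S, hS1.trans ?_, ?_⟩
  · have e1 : V = X ^ σ / 2 ^ σ := by rw [hV, Real.div_rpow hX0.le (by norm_num)]
    have e2 : 192 * ((2 + Real.log X) * X / V) ^ 2 =
        (192 * ((2 : ℝ) ^ σ) ^ 2) * (2 + Real.log X) ^ 2 * (X / X ^ σ) ^ 2 := by
      rw [e1]
      have : (0 : ℝ) < 2 ^ σ := by positivity
      have : (0 : ℝ) < X ^ σ := by positivity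
      field_simp
    have e3 : (X / X ^ σ) ^ 2 = X ^ (2 - 2 * σ) := by
      have : X / X ^ σ = X ^ (1 - σ) := by rw [Real.rpow_sub hX0, Real.rpow_one]
      rw [this, ← Real.rpow_natCast, ← Real.rpow_mul hX0.le]
      congr 1
      push_cast
      ring
    have e4 : (2 + Real.log X) ^ 2 ≤ X ^ (2 * ε) := by
      have h5 : 2 + Real.log X ≤ X ^ ε := by
        rw [one_mul] at g1
        linarith
      calc (2 + Real.log X) ^ 2 ≤ (X ^ ε) ^ 2 := pow_le_pow_left₀ (by linarith) h5 2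
        _ = X ^ (2 * ε) := by
            rw [← Real.rpow_natCast, ← Real.rpow_mul hX0.le]
            congr 1
            push_cast
            ring
    have e5 : X ^ (2 - 2 * σ + 3 * ε) = X ^ ε * X ^ (2 * ε) * X ^ (2 - 2 * σ) := by
      rw [← Real.rpow_add hX0, ← Real.rpow_add hX0]
      congr 1
      ring
    rw [e2, e3, e5]
    gcongr
  · refine Set.Subset.trans ?_ (hS2.trans ?_)
    · rintro x ⟨hx, M, hM1, hM2, hlt⟩
      refine ⟨hx, M, hM1, ?_⟩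
      have h6 : X / 2 ≤ (M : ℝ) := by
        have : ((2 ^ i : ℕ) : ℝ) ≤ ((2 * M : ℕ) : ℝ) := by exact_mod_cast hM2
        rw [hNX] at this
        push_cast at this
        linarith
      exact (Real.rpow_le_rpow (by positivity) h6 hσ).trans hlt.le
    · rw [hNX, Real.rpow_neg_one, one_div]

theorem bad_sub (c : ℕ → ℂ) (hc : ∀ n, ‖c n‖ ≤ 1) (σ : ℝ) (hσ : 0 ≤ σ) (x : ℝ)
    (hx : ¬ Good c σ x) : ∀ i1 : ℕ, ∃ i : ℕ, i1 ≤ i ∧ x ∈ BB c σ ⌊x⌋ i := by
  intro i1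
  by_contra hcon
  push Not at hcon
  apply hx
  refine ⟨(2 : ℝ) ^ i1 + 1, ?_⟩
  intro N hN
  have hN' : (1 : ℝ) ≤ (N : ℝ) := by exact_mod_cast hN
  have hR : 1 ≤ (N : ℝ) ^ σ := Real.one_le_rpow hN' hσ
  have hp : (0 : ℝ) < (2 : ℝ) ^ i1 := by positivity
  rcases le_total N (2 ^ i1) with hN2 | hN2
  · have h4 : (N : ℝ) ≤ (2 : ℝ) ^ i1 := by exact_mod_cast hN2
    refine (ps_le c hc N x).trans ?_
    nlinarith
  · obtain ⟨i, hi1, hi2⟩ : ∃ i : ℕ, N ≤ 2 ^ i ∧ 2 ^ i ≤ 2 * N := by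
      refine ⟨Nat.log 2 N + 1, (Nat.lt_pow_succ_log_self (by norm_num) N).le, ?_⟩
      have := Nat.pow_log_le_self 2 (show N ≠ 0 by omega)
      rw [pow_succ]
      omega
    have hii : i1 ≤ i := by
      have : 2 ^ i1 ≤ 2 ^ i := hN2.trans hi1
      exact (Nat.pow_le_pow_iff_right (by norm_num)).mp this
    have h5 := hcon i hii
    have h6 : ‖ps c N x‖ ≤ (N : ℝ) ^ σ := by
      by_contra h7
      push Not at h7
      apply h5
      exact ⟨⟨Int.floor_le x, (Int.lt_floor_add_one x).le⟩, N, hi1, hi2, h7⟩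
    nlinarith

/-- **Hausdorff dimension of the exceptional set**, for arbitrary bounded coefficients. -/
theorem dim_bad (c : ℕ → ℂ) (hc : ∀ n, ‖c n‖ ≤ 1) (σ : ℝ) :
    dimH {x : ℝ | ¬ Good c σ x} ≤ ENNReal.ofReal (2 - 2 * σ) := by
  rcases le_or_gt σ (1 / 2) with hσ | hσ
  · refine (dimH_mono (Set.subset_univ _)).trans ?_
    rw [Real.dimH_univ]
    rw [← ENNReal.ofReal_one]
    exact ENNReal.ofReal_le_ofReal (by linarith)
  have hσ0 : 0 ≤ σ := by linarith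
  set A : ℝ := 2 - 2 * σ with hA
  have hsub : {x : ℝ | ¬ Good c σ x} ⊆
      ⋃ j : ℤ, {x : ℝ | ∀ i1 : ℕ, ∃ i : ℕ, i1 ≤ i ∧ x ∈ BB c σ j i} := by
    intro x hx
    rw [Set.mem_iUnion]
    exact ⟨⌊x⌋, bad_sub c hc σ hσ0 x hx⟩
  have hfin : ENNReal.ofReal (max A 0) ≤ ENNReal.ofReal A := by
    rw [ENNReal.ofReal_max, ENNReal.ofReal_zero, max_eq_left zero_le]
  refine le_trans ?_ hfin
  refine (dimH_mono hsub).trans ?_
  rw [dimH_iUnion]
  apply iSup_le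
  intro j
  apply ENNReal.le_of_forall_pos_le_add
  intro ρ hρ _
  have hρ' : (0 : ℝ) < (ρ : ℝ) := by exact_mod_cast hρ
  set D : ℝ := max A 0 + ρ with hD
  have hD0 : 0 < D := by
    have := le_max_right A 0
    rw [hD]; linarith
  set ε' : ℝ := ρ / 6 with hε'def
  have hε' : 0 < ε' := by positivity
  have h1 := S_DIMG_t (A + 3 * ε') 1 D (BB c σ j) one_pos hD0
    (by
      have := le_max_left A 0
      rw [hε'def, hD]
      linarith)
    (coverB c hc σ hσ0 ε' hε' j)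
  refine h1.trans (le_of_eq ?_)
  rw [hD, ENNReal.ofReal_add (le_max_right _ _) hρ'.le, ENNReal.ofReal_coe_nnreal]

/-- the exceptional set together with all its images under rational affine maps -/
def Exc (c : ℕ → ℂ) (σ : ℝ) : Set ℝ := {x : ℝ | ∃ r s : ℚ, r ≠ 0 ∧ ¬ Good c σ ((r : ℝ) * x + s)}

theorem dim_exc (c : ℕ → ℂ) (hc : ∀ n, ‖c n‖ ≤ 1) (σ : ℝ) :
    dimH (Exc c σ) ≤ ENNReal.ofReal (2 - 2 * σ) := by
  have hsub : Exc c σ ⊆ ⋃ p : ℚ × ℚ, (fun y : ℝ => ((p.1 : ℝ))⁻¹ * y + (-((p.1 : ℝ))⁻¹ * p.2)) ''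
      {x : ℝ | ¬ Good c σ x} := by
    rintro x ⟨r, s, hr, hx⟩
    rw [Set.mem_iUnion]
    refine ⟨(r, s), (r : ℝ) * x + s, hx, ?_⟩
    have hr' : (r : ℝ) ≠ 0 := by exact_mod_cast hr
    change (r : ℝ)⁻¹ * ((r : ℝ) * x + s) + (-(r : ℝ)⁻¹ * s) = x
    field_simp
    ring
  refine (dimH_mono hsub).trans ?_
  rw [dimH_iUnion]
  apply iSup_le
  rintro ⟨r, s⟩
  have hlip : LipschitzWith (Real.toNNReal |(r : ℝ)⁻¹|)
      (fun y : ℝ => ((r : ℝ))⁻¹ * y + (-((r : ℝ))⁻¹ * s)) := by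
    apply LipschitzWith.of_dist_le_mul
    intro a b
    rw [Real.dist_eq, Real.dist_eq, Real.coe_toNNReal _ (abs_nonneg _), ← abs_mul]
    apply le_of_eq
    congr 1
    ring
  exact (hlip.dimH_image_le _).trans (dim_bad c hc σ)

/-- sums over the residue class `b` modulo `q` -/
theorem residue (c : ℕ → ℂ) (q : ℕ) (hq : 0 < q) (b N : ℕ) (x : ℝ) :
    (q : ℂ) * ∑ n ∈ (Icc 1 N).filter (fun n => n ≡ b [MOD q]), c n * e (x * n) =
      ∑ j ∈ range q, e (-((j : ℝ) * b / q)) * ps c N (x + (j : ℝ) / q) := by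
  have hq0 : (q : ℝ) ≠ 0 := by exact_mod_cast hq.ne'
  have hq1 : (q : ℂ) ≠ 0 := by exact_mod_cast hq.ne'
  have h1 : ∀ n : ℕ, ∑ j ∈ range q, e (-((j : ℝ) * b / q)) * e ((j : ℝ) / q * n) =
      if n ≡ b [MOD q] then (q : ℂ) else 0 := by
    intro n
    set z : ℂ := e (((n : ℝ) - b) / q) with hz
    have h2 : ∀ j : ℕ, e (-((j : ℝ) * b / q)) * e ((j : ℝ) / q * n) = z ^ j := by
      intro j
      rw [← e_add, hz]
      unfold Pool.Agent.W928.MW.e
      rw [← Complex.exp_nat_mul]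
      congr 1
      push_cast
      field_simp
      ring
    rw [Finset.sum_congr rfl fun j _ => h2 j]
    have hzq : z ^ q = 1 := by
      rw [hz]
      unfold Pool.Agent.W928.MW.e
      rw [← Complex.exp_nat_mul]
      have : (q : ℂ) * (2 * (Real.pi : ℂ) * Complex.I * ((((n : ℝ) - b) / q : ℝ) : ℂ)) =
          (((n : ℤ) - (b : ℤ) : ℤ) : ℂ) * (2 * (Real.pi : ℂ) * Complex.I) := by
        push_cast
        field_simp
      rw [this]
      exact Complex.exp_int_mul_two_pi_mul_I _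
    by_cases hnb : n ≡ b [MOD q]
    · rw [if_pos hnb]
      have hz1 : z = 1 := by
        obtain ⟨m, hm⟩ := (Nat.modEq_iff_dvd.1 hnb.symm)
        rw [hz]
        unfold Pool.Agent.W928.MW.e
        have : 2 * (Real.pi : ℂ) * Complex.I * ((((n : ℝ) - b) / q : ℝ) : ℂ) =
            ((m : ℤ) : ℂ) * (2 * (Real.pi : ℂ) * Complex.I) := by
          have h3 : ((n : ℝ) - b) / q = (m : ℝ) := by
            rw [div_eq_iff hq0]
            have h4 : ((n : ℤ) : ℝ) - ((b : ℤ) : ℝ) = ((q : ℤ) : ℝ) * (m : ℝ) := by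
              exact_mod_cast hm
            push_cast at h4
            linarith
          rw [h3]
          push_cast
          ring
        rw [this]
        exact Complex.exp_int_mul_two_pi_mul_I _
      rw [hz1]
      simp
    · rw [if_neg hnb]
      have hz1 : z ≠ 1 := by
        intro h
        apply hnb
        rw [hz] at h
        unfold Pool.Agent.W928.MW.e at h
        rw [Complex.exp_eq_one_iff] at h
        obtain ⟨m, hm⟩ := h
        have h2 : ((((n : ℝ) - b) / q : ℝ) : ℂ) = (m : ℂ) := by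
          have h3 : (2 * (Real.pi : ℂ) * Complex.I) ≠ 0 := Complex.two_pi_I_ne_zero
          apply mul_left_cancel₀ h3
          rw [hm]
          ring
        have h3 : ((n : ℝ) - b) / q = (m : ℝ) := by exact_mod_cast h2
        rw [div_eq_iff hq0] at h3
        have h4 : (n : ℤ) - (b : ℤ) = (q : ℤ) * m := by
          have : ((n : ℝ)) - b = (q : ℝ) * m := by rw [h3]; ring
          exact_mod_cast this
        exact (Nat.modEq_iff_dvd.2 ⟨m, h4⟩).symm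
      rw [geom_sum_eq hz1, hzq]
      simp
  have h3 : ∀ j ∈ range q, e (-((j : ℝ) * b / q)) * ps c N (x + (j : ℝ) / q) =
      ∑ n ∈ Icc 1 N, (c n * e (x * n)) * (e (-((j : ℝ) * b / q)) * e ((j : ℝ) / q * n)) := by
    intro j _
    unfold ps
    rw [Finset.mul_sum]
    apply Finset.sum_congr rfl
    intro n _
    have : e ((x + (j : ℝ) / q) * n) = e (x * n) * e ((j : ℝ) / q * n) := by
      rw [← e_add]; congr 1; ring
    rw [this]
    ring
  rw [Finset.sum_congr rfl h3, Finset.sum_comm]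
  have h4 : ∀ n ∈ Icc 1 N, ∑ j ∈ range q, (c n * e (x * n)) * (e (-((j : ℝ) * b / q)) * e ((j : ℝ) / q * n)) =
      if n ≡ b [MOD q] then (q : ℂ) * (c n * e (x * n)) else 0 := by
    intro n _
    rw [← Finset.mul_sum, h1 n]
    split_ifs <;> ring
  rw [Finset.sum_congr rfl h4, ← Finset.sum_filter, Finset.mul_sum]

/-- **Simultaneous bounds** off the exceptional set: at all rational affine images, in all residue
classes. -/
theorem good_residue (c : ℕ → ℂ) (σ : ℝ) (x : ℝ) (hx : x ∉ Exc c σ) (r s : ℚ) (hr : r ≠ 0)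
    (q b : ℕ) (hq : 0 < q) : ∃ C : ℝ, ∀ N : ℕ, 1 ≤ N →
      ‖∑ n ∈ (Icc 1 N).filter (fun n => n ≡ b [MOD q]), c n * e (((r : ℝ) * x + s) * n)‖ ≤
        C * (N : ℝ) ^ σ := by
  have h1 : ∀ j : ℕ, Good c σ ((r : ℝ) * x + s + (j : ℝ) / q) := by
    intro j
    by_contra hcon
    apply hx
    refine ⟨r, s + (j : ℚ) / q, hr, ?_⟩
    have : (r : ℝ) * x + ((s + (j : ℚ) / q : ℚ) : ℝ) = (r : ℝ) * x + s + (j : ℝ) / q := by
      push_cast; ring
    rw [this]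
    exact hcon
  choose C hC using h1
  refine ⟨∑ j ∈ range q, C j, fun N hN => ?_⟩
  have hq1 : (1 : ℝ) ≤ q := by exact_mod_cast hq
  have h2 := residue c q hq b N ((r : ℝ) * x + s)
  have h3 : (q : ℝ) * ‖∑ n ∈ (Icc 1 N).filter (fun n => n ≡ b [MOD q]),
      c n * e (((r : ℝ) * x + s) * n)‖ ≤ (∑ j ∈ range q, C j) * (N : ℝ) ^ σ := by
    have h4 : (q : ℝ) * ‖∑ n ∈ (Icc 1 N).filter (fun n => n ≡ b [MOD q]),
        c n * e (((r : ℝ) * x + s) * n)‖ = ‖(q : ℂ) * ∑ n ∈ (Icc 1 N).filter (fun n => n ≡ b [MOD q]),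
        c n * e (((r : ℝ) * x + s) * n)‖ := by
      rw [norm_mul, Complex.norm_natCast]
    rw [h4, h2, Finset.sum_mul]
    refine (norm_sum_le _ _).trans (Finset.sum_le_sum fun j _ => ?_)
    rw [norm_mul, e_norm, one_mul]
    exact hC j N hN
  have h5 := norm_nonneg (∑ n ∈ (Icc 1 N).filter (fun n => n ≡ b [MOD q]),
    c n * e (((r : ℝ) * x + s) * n))
  nlinarith

end Pool.Agent.R505.ES
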